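import Pool.Agent.P.MP_3e99c6_gt.Main

/-! A compact locally conformally Kaehler manifold of complex dimension at least three with
constant nonzero Bismut holomorphic sectional curvature is Kaehler. -/

open Pool.Agent.P.MP_3e99c6_gt

theorem Pool.Agent.Old.MP_3e99c6_gt.LCK.result (n : ℕ) (hn : 3 ≤ n) (M : Type)
    [TopologicalSpace M] [T2Space M] [CompactSpace M] [ChartedSpace (V n) M]
    (hM : ComplexMfd n M) (g : M → Bil n) (hg : S.IsHermitian g) (hL : S.IsLCK g)
    (c : ℝ) (hc : c ≠ 0) (hH : S.ConstHSC g c) : S.IsKaehler g :=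
  lck_main hn hM hg.un hL hc hH.un
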